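import Pool.Agent.Work.MP_4030f5_lc.F5
import Pool.Agent.Work.MP_4030f5_lc.B5
import Pool.Agent.Work.MP_4030f5_lc.U.Main
import Pool.Agent.Work.MP_4030f5_lc.U.Unroll

namespace Pool.Agent.Results.MP_4030f5_lc.UniformBettiExactlyFromTwo

open BU

/-- In every dimension `k ≥ 2` there is one algorithm (real arithmetic and comparisons, integer
constants only, control by a Turing computable function of the discrete data) that computes the
list of all Betti numbers of the union of `n` closed bounded semialgebraic sets of constant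
description complexity with `O(n^k)` steps, for all `n`; in dimension `k = 1` there is no such
algorithm, not even a family of computation trees of linear depth with arbitrary real constants.
The cohomology of the unions is finite dimensional and vanishes in the degrees `≥ k`. -/
theorem result :
    (∀ k c : ℕ, 2 ≤ k → UniformFastBetti k c) ∧
    (∀ c : ℕ, 1 ≤ c → ¬ UniformFastBetti 1 c ∧ ¬ FastBettiR 1 c) ∧
    (∀ (k c n : ℕ) (F : Fin n → Formula c) (a : Fin n → Coef (k + c) c), 1 ≤ k → Arr k F a →
      ∀ q : ℕ, Module.Finite ℚ (HAS (uni k F a) q) ∧ (k ≤ q → betti (uni k F a) q = 0)) := by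
  have hcomp : ∀ (k c n : ℕ) (F : Fin n → Formula c) (a : Fin n → Coef (k + c) c), Arr k F a →
      ∀ i, IsCompact (foSet (k := k) (F i) (a i)) :=
    fun k c n F a ha i => Metric.isCompact_of_isClosed_isBounded (ha i).1 (ha i).2
  have hneg : ∀ c : ℕ, 1 ≤ c → ¬ FastBettiR 1 c := by
    intro c hc
    rintro ⟨C, hC⟩
    refine no_linear_betti_fo c hc ⟨C, fun n F => ?_⟩
    obtain ⟨T, hT, hrun⟩ := hC n F
    exact ⟨T, hT, fun a s ha q => hrun a (fun i => ⟨(ha i).isClosed, (ha i).isBounded⟩) s q⟩
  refine ⟨fun k c hk => uniform_main k c hk,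
    fun c hc => ⟨fun h => hneg c hc (uniform_fastR h), hneg c hc⟩, fun k c n F a hk ha q => ?_⟩
  exact ⟨finite_cohomology_fo F a (hcomp k c n F a ha) q,
    fun hq => betti_eq_zero_fo hk F a (hcomp k c n F a ha) q hq⟩

end Pool.Agent.Results.MP_4030f5_lc.UniformBettiExactlyFromTwo
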